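import Pool.Agent.P.MP_59d724_co.KMain

set_option autoImplicit false

theorem Pool.Agent.Results.MP_59d724_co.AdditiveColours.result :
    ∀ k : ℕ, ∃ c : ℤ → Fin (k + 200),
      ∀ a b : ℤ, a ≤ b → ∀ r ≤ k, ¬ Pool.Agent.P.MP_59d724_co.HasSplitting c a b r :=
  Pool.Agent.P.MP_59d724_co.main_add
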