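import Pool.Agent.P.MP_59d724_co.CkFinal

set_option autoImplicit false

open MeasureTheory

theorem Pool.Agent.Results.MP_59d724_co.ContinuousColours.result (k : ℕ) :
    ∃ c : ℝ → Fin (k + 2), Measurable c ∧
      ∀ r ≤ k, ∀ x : Fin (r + 2) → ℝ, StrictMono x → ∀ q : ℕ, 2 ≤ q → ∀ g : Fin (r + 1) → Fin q,
        ¬ ∀ (i : Fin (k + 2)) (l : Fin q),
          ∑ j with g j = l, volume (c ⁻¹' {i} ∩ Set.Icc (x j.castSucc) (x j.succ)) =
            volume (c ⁻¹' {i} ∩ Set.Icc (x 0) (x (Fin.last (r + 1)))) / q :=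
  ColK.main k
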