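import Pool.Agent.P.MP_59d724_co.McThree
import Pool.Agent.P.MP_59d724_co.McTwo

open MeasureTheory Set

namespace Pool.Agent.Results.MP_59d724_co.ThreeColours

/-- The least number of colours of a Lebesgue measurable colouring of the line in which no two
different intervals contain the same measure of every colour is three. -/
theorem result : IsLeast {m : ℕ | ∃ c : ℝ → Fin m, (∀ i, NullMeasurableSet (c ⁻¹' {i}) volume) ∧
    ∀ a b a' b' : ℝ, a < b → a' < b' →
      (∀ i, volume (c ⁻¹' {i} ∩ Set.Icc a b) = volume (c ⁻¹' {i} ∩ Set.Icc a' b')) →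
        a = a' ∧ b = b'} 3 := by
  constructor
  · obtain ⟨c, hc, h⟩ := Mc59.three
    exact ⟨c, fun i => (hc (measurableSet_singleton i)).nullMeasurableSet, h⟩
  · rintro m ⟨c, hc, h⟩
    by_contra hm
    have hn : NullMeasurable c volume := by
      intro s _
      have : c ⁻¹' s = ⋃ i ∈ s, c ⁻¹' {i} := by ext t; simp
      rw [this]
      exact NullMeasurableSet.biUnion s.to_countable fun i _ => hc i
    obtain ⟨g, hg, hcg⟩ := hn.aemeasurable
    obtain ⟨a, L, hL, he⟩ := Mc59.two (m := m) (by omega) g hg
    have key : ∀ i (s : Set ℝ), volume (c ⁻¹' {i} ∩ s) = volume (g ⁻¹' {i} ∩ s) := by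
      intro i s
      refine measure_congr ?_
      filter_upwards [hcg] with t ht
      change (c t ∈ ({i} : Set (Fin m)) ∧ t ∈ s) = (g t ∈ ({i} : Set (Fin m)) ∧ t ∈ s)
      rw [ht]
    have := (h a (a + L) (a + L) (a + L + L) (by linarith) (by linarith) fun i => by
      rw [key, key]; exact he i).1
    linarith

end Pool.Agent.Results.MP_59d724_co.ThreeColours
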